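import Mathlib
import Pool.Agent.Z894.LX.Stm
import Pool.Agent.TH922.KC.Kol2
import Pool.Agent.TH922.KC.Galois

/-!
# Powers of ratios lie in the field

Part 1 of the project LX (problem MP_8dbee4_ag), adapted from `ratios` of `TH922.KC.Kol3`.
-/

set_option autoImplicit false

open MvPolynomial

namespace Pool.Agent.Y686.LX

open Pool.Agent.TH922.KC Pool.Agent.Z894.LX

theorem ratios_holds : GRatios := by
  classical
  intro κ Ω _ _ _ _ _ s p D k0 hp ω hω ι _ S mu c hc hmu hD F v j0 hv0 hvF hw hcard
  set V := IntermediateField.adjoin F (Set.range v) with hV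
  let v' : {m // m ∈ S} → V := fun x => ⟨v x, IntermediateField.subset_adjoin _ _
    (Set.mem_range_self x)⟩
  have hgen : IntermediateField.adjoin F (Set.range v') = ⊤ := by
    apply IntermediateField.lift_injective V
    rw [IntermediateField.lift_adjoin, IntermediateField.lift_top, ← Set.range_comp]
    rfl
  let a : {m // m ∈ S} → F := fun x => ⟨v x ^ (p ^ s), hvF x⟩
  have hva : ∀ x, v' x ^ (p ^ s) = algebraMap F V (a x) := fun x => Subtype.ext rfl
  have hωF : IsPrimitiveRoot (algebraMap κ F ω) (p ^ s) :=
    hω.map_of_injective (algebraMap κ F).injective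
  have hcF : CharZero F := charZero_of_injective_algebraMap (algebraMap κ F).injective
  have hcV : CharZero V := charZero_of_injective_algebraMap (algebraMap κ V).injective
  obtain ⟨hfd, ⟨k, hk⟩, τ, hτinj, hτ⟩ := galois_count hp (algebraMap κ F ω) hωF v' a hva hgen
  have hkle : k ≤ k0 := by
    by_contra hk0
    have hN : p ^ (k0 + 1) ≤ Module.finrank F V := by
      rw [hk]; exact Nat.pow_le_pow_right hp.pos (by omega)
    let P : Fin (p ^ (k0 + 1)) → {m // m ∈ S} → V := fun b x => τ (Fin.castLE hN b) (v' x)
    have hv'0 : v' j0 = 1 := Subtype.ext hv0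
    have hval : ∀ b, ∑ o, algebraMap κ V (c o) * ∏ x, P b x ^ mu o x
        = algebraMap F V ⟨_, hw⟩ := by
      intro b
      have e1 : ∑ o, algebraMap κ V (c o) * ∏ x, P b x ^ mu o x
          = τ (Fin.castLE hN b) (∑ o, algebraMap κ V (c o) * ∏ x, v' x ^ mu o x) := by
        rw [map_sum]
        refine Finset.sum_congr rfl fun o _ => ?_
        rw [map_mul, map_prod, IsScalarTower.algebraMap_apply κ F V, AlgEquiv.commutes]
        congr 1
        exact Finset.prod_congr rfl fun x _ => (map_pow _ _ _).symm
      have e2 : ∑ o, algebraMap κ V (c o) * ∏ x, v' x ^ mu o x = algebraMap F V ⟨_, hw⟩ := by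
        apply Subtype.ext
        let ιV : V →ₐ[κ] Ω := (IntermediateField.val V).restrictScalars κ
        change ιV (∑ o, algebraMap κ V (c o) * ∏ x, v' x ^ mu o x)
          = ∑ o, algebraMap κ Ω (c o) * ∏ x, v x ^ mu o x
        rw [map_sum]
        refine Finset.sum_congr rfl fun o _ => ?_
        rw [map_mul, AlgHom.commutes, map_prod]
        congr 1
      rw [e1, e2, AlgEquiv.commutes]
    have hP0 : ∀ b, P b j0 = 1 := by
      intro b
      change τ _ (v' j0) = 1
      rw [hv'0, map_one]
    have hPv : ∀ b x, P b x = 0 ↔ v' x = 0 := by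
      intro b x
      change τ _ (v' x) = 0 ↔ _
      rw [map_eq_zero]
    have hPinj : Function.Injective P := by
      intro x y hxy
      have h1 := hτinj (a₁ := Fin.castLE hN x) (a₂ := Fin.castLE hN y) hxy
      exact Fin.castLE_injective hN h1
    have hind := ev_linInd2 (D := D) (a0 := 0) mu ∅ v'
      (fun t ht => absurd ht (Finset.notMem_empty t))
      (fun ν hν1 _ _ => hmu ν hν1) (by simpa using hD) P j0 hP0 hPinj hPv
    have hcount := trans_count2 (κ := κ) (Ω := V) (Nat.one_le_pow _ _ hp.pos) mu c hc v' j0 hv'0 P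
      (by
        intro x i
        obtain ⟨l, hl⟩ := hτ (Fin.castLE hN x) i
        refine ⟨algebraMap F V (algebraMap κ F ω ^ l), ?_, hl⟩
        have h1 : algebraMap F V (algebraMap κ F ω ^ l) = algebraMap κ V (ω ^ l) := by
          rw [map_pow, map_pow, IsScalarTower.algebraMap_apply κ F V]
        rw [h1]
        refine IsAlgebraic.algebraMap ?_
        refine IsAlgebraic.pow ?_ l
        refine (IsIntegral.of_pow (pow_pos hp.pos s) ?_).isAlgebraic
        rw [hω.pow_eq_one]
        exact isIntegral_one) hind (by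
        intro x y
        rw [hval, hval])
    rw [Fintype.card_coe] at hcount
    exact absurd hcount.1 (by omega)
  -- the product over the automorphisms
  have hτi : Function.Injective τ := by
    intro i i' h
    apply hτinj
    funext j
    show τ i (v' j) = τ i' (v' j)
    rw [h]
  have hcardA : Fintype.card (V ≃ₐ[F] V) = Module.finrank F V := by
    apply le_antisymm
    · exact AlgEquiv.card_le
    · have := Fintype.card_le_of_injective τ hτi
      rwa [Fintype.card_fin] at this
  have hbij : Function.Bijective τ := by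
    rw [Fintype.bijective_iff_injective_and_card]
    exact ⟨hτi, by rw [Fintype.card_fin, hcardA]⟩
  have hG : IsGalois F V := IsGalois.of_card_aut_eq_finrank F V (by
    rw [Nat.card_eq_fintype_card, hcardA])
  intro x
  by_cases hx0 : v x = 0
  · rw [hx0, zero_pow (pow_pos hp.pos k0).ne']
    exact F.zero_mem
  choose l hl using fun i => hτ i x
  have h1 : algebraMap F V (Algebra.norm F (v' x)) =
      algebraMap F V (∏ i, algebraMap κ F ω ^ l i) * v' x ^ (p ^ k) := by
    rw [Algebra.norm_eq_prod_automorphisms, ← hbij.prod_comp (fun σ => σ (v' x)), map_prod]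
    have h2 : v' x ^ (p ^ k) = ∏ _i : Fin (Module.finrank F V), v' x := by
      rw [Finset.prod_const, Finset.card_univ, Fintype.card_fin, hk]
    rw [h2, ← Finset.prod_mul_distrib]
    exact Finset.prod_congr rfl fun i _ => hl i
  have hω0 : (∏ i, algebraMap κ F ω ^ l i) ≠ 0 :=
    Finset.prod_ne_zero_iff.2 fun i _ => pow_ne_zero _ (hωF.ne_zero (pow_pos hp.pos s).ne')
  have h3 : v' x ^ (p ^ k) = algebraMap F V
      (Algebra.norm F (v' x) / ∏ i, algebraMap κ F ω ^ l i) := by
    rw [map_div₀, h1, mul_div_cancel_left₀]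
    rw [Ne, map_eq_zero]
    exact hω0
  have h4 : v x ^ (p ^ k) ∈ F := by
    have h5 : v x ^ (p ^ k) = ((Algebra.norm F (v' x) / ∏ i, algebraMap κ F ω ^ l i : F) : Ω) :=
      congrArg Subtype.val h3
    rw [h5]
    exact SetLike.coe_mem _
  have h6 : p ^ k0 = p ^ k * p ^ (k0 - k) := by
    rw [← pow_add]
    congr 1
    omega
  rw [h6, pow_mul]
  exact pow_mem h4 _

end Pool.Agent.Y686.LX
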